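import Mathlib
import Pool.Agent.Helper18.EW.Goals
import Pool.Agent.Helper63.Hw.H1
import Pool.Agent.Helper62.Hw.H4

/-!
# EW packet E8b (MP_d3128a_ag)
-/

set_option autoImplicit false

namespace Pool.Agent.Helper48.EW

open Finset
open Pool.Agent.Helper43.Hw (T na va lz Play aa ac sc oo sk U Dd Sd)
open Pool.Agent.Helper18.EW

theorem goalH1' : Pool.Agent.Helper43.Hw.GoalH1 := Pool.Agent.Helper43.Hw.PkH1.goalH1
theorem goalH4' : Pool.Agent.Helper43.Hw.GoalH4 :=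
  Pool.Agent.Helper43.Hw.PkH4.goalH4 Pool.Agent.Helper43.Hw.PkH1.goalH1

/-- sum of an arithmetic progression -/
theorem sum_ap (a β n : ℕ) (f : ℕ → ℕ) (h : ∀ i ≤ n, f i = a + i * β) :
    ∑ i ∈ range (n + 1), f i = (n + 1) * a + β * T n := by
  rw [Finset.sum_congr rfl (fun i hi => h i (by have := Finset.mem_range.1 hi; omega))]
  clear h
  induction n with
  | zero => simp [Pool.Agent.Helper43.Hw.T_zero]
  | succ n ih =>
    rw [Finset.sum_range_succ, ih, Pool.Agent.Helper43.Hw.T_succ]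
    ring

/-- elementary consequences of `Ph` for the stopped play -/
structure Num (μ R b l q v τ : ℕ) : Prop where
  μ1 : 2 ^ 40 ≤ μ
  lμ : 2 ^ 40 * l ≤ μ
  l1 : 1 ≤ l
  v1 : 1 ≤ 2 ^ q * v
  lv : 2 ^ 20 * l ≤ 2 ^ q * v
  vμ : 2 ^ 30 * (2 ^ q * v) ≤ μ
  R1 : 100 * μ ≤ R
  t1 : R - 1 - μ < τ + 2 ^ q * v
  t2 : τ + 2 ^ q * v ≤ R - 1 - μ + l

theorem num {μ R N K b l Lg q β v τ s : ℕ} {ℓ κ x : ℕ → ℕ}
    (P : Ph μ R N K b l Lg q β v τ s ℓ κ x) : Num μ R b l q v τ := by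
  have p1 := P.par.b1
  have p2 := P.par.b2
  have p3 := P.par.L1
  have p4 := P.par.l1
  have p5 := P.par.R1
  have h1 := P.vb
  have h2 := P.vc
  have hb : 2 ^ 40 ≤ b := le_trans (by nlinarith) p1
  have hq : 1 ≤ (q + 1) ^ 2 := Nat.one_le_pow _ _ (by omega)
  have hbl : 2 ^ 31 * (b * l) ≤ μ := by
    refine le_trans ?_ p2
    calc 2 ^ 31 * (b * l) = 2 ^ 31 * b * 1 * l := by ring
      _ ≤ 2 ^ 31 * b * (q + 1) ^ 2 * l := by gcongr
  have hbl2 : 2 ^ 40 * l ≤ b * l := Nat.mul_le_mul_right _ hb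
  have hv : 1 ≤ 2 ^ q * v := Nat.mul_pos (by positivity) P.v1
  refine ⟨?_, ?_, p4, hv, ?_, ?_, p5, P.t1, P.t2⟩
  · have : 1 ≤ l := p4
    omega
  · omega
  · omega
  · omega


/-- the pending skips at the row `J` -/
theorem Sd_le {μ R : ℕ} {κ x : ℕ → ℕ} (hR : μ + 2 ≤ R) :
    Sd μ R κ x (R - 1 - μ) ≤ μ ^ 2 := by
  unfold Sd
  have hc : ((range (R - 1 - μ)).filter (fun t => κ t < κ (R - 1 - μ) ∧ 0 < x t ∧
      U μ R x t ≤ R - 1 - (R - 1 - μ))).card ≤ μ := by
    have hs : (range (R - 1 - μ)).filter (fun t => κ t < κ (R - 1 - μ) ∧ 0 < x t ∧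
        U μ R x t ≤ R - 1 - (R - 1 - μ)) ⊆ Ico (R - 2 * μ) (R - 1 - μ) := by
      intro t ht
      simp only [mem_filter, mem_range, U] at ht
      rw [mem_Ico]
      omega
    refine (card_le_card hs).trans ?_
    rw [Nat.card_Ico]
    omega
  refine (Finset.sum_le_card_nsmul _ _ μ ?_).trans ?_
  · intro t ht
    have := (mem_filter.1 ht).2.2.2
    omega
  · rw [smul_eq_mul, pow_two]
    exact Nat.mul_le_mul_right _ hc

/-- the deaths between the rows `J` and `t` -/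
theorem deaths {μ R N β l τ : ℕ} {ℓ κ x : ℕ → ℕ} (h6 : GoalE6) (hμ : 1 ≤ μ) (hR : 100 * μ ≤ R)
    (hl : Len R β ℓ) (hp : Play μ R N κ x) (he : Ex μ R N ℓ κ x (τ - 1)) (hτ : τ + μ ≤ R)
    (hτ1 : 1 ≤ τ) (hi : l * (β * R) ≤ 8 * μ ^ 2) {t : ℕ} (ht : R - 1 - μ ≤ t)
    (ht2 : t - μ ≤ τ - 1) (htR : t < R) (hκ : κ t = κ (R - 1 - μ)) :
    l * oo μ R κ x (R - 1 - μ) ≤ l * oo μ R κ x t + (40 * (t - (R - 1 - μ)) + 2 * l) := by
  obtain ⟨a1, a2, a3, a4, a5, a6, a7⟩ := goalH1' μ R N κ x hμ (by omega) hp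
  obtain ⟨b1, b2, b3, b4⟩ := h6 μ R N β ℓ κ x (τ - 1) hμ hR hl hp he (by omega)
  have b5 := b4 l (R - 1 - μ - μ) (t - μ) (by omega) (by omega) ht2 hi
  have e1 : oo μ R κ x (R - 1 - μ) =
      ((range (κ t)).filter (fun c => R - 1 - μ < ac R κ x c + μ)).card := by
    unfold oo
    rw [hκ]
    congr 1
    refine filter_congr (fun c hc => ?_)
    exact (a6 (R - 1 - μ) (by omega) c (mem_range.1 hc)).2.2.2
  have e2 : oo μ R κ x t = ((range (κ t)).filter (fun c => t < ac R κ x c + μ)).card := by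
    unfold oo
    congr 1
    refine filter_congr (fun c hc => ?_)
    exact (a6 t htR c (mem_range.1 hc)).2.2.2
  have e3 : oo μ R κ x (R - 1 - μ) ≤
      oo μ R κ x t + (aa κ x (t - μ) - aa κ x (R - 1 - μ - μ)) := by
    rw [e1, e2]
    have hs : (range (κ t)).filter (fun c => R - 1 - μ < ac R κ x c + μ) ⊆
        (range (κ t)).filter (fun c => t < ac R κ x c + μ) ∪
          Ico (aa κ x (R - 1 - μ - μ)) (aa κ x (t - μ)) := by
      intro c hc
      rw [mem_union]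
      simp only [mem_filter, mem_range, mem_Ico] at hc ⊢
      by_cases h : t < ac R κ x c + μ
      · exact Or.inl ⟨hc.1, h⟩
      · right
        have c1 := (a1 c (R - 1 - μ - μ) (by omega)).2
        have c2 := (a1 c (t - μ) (by omega)).2
        constructor
        · apply c1.2
          omega
        · by_contra h4
          have := c2.1 (by omega)
          omega
    refine (card_le_card hs).trans ((card_union_le _ _).trans ?_)
    rw [Nat.card_Ico]
  have e4 := Nat.mul_le_mul_left l e3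
  rw [mul_add] at e4
  refine e4.trans (Nat.add_le_add_left (b5.trans ?_) _)
  have : t - μ - (R - 1 - μ - μ) = t - (R - 1 - μ) := by omega
  rw [this]

/-- the row step after `J` -/
theorem stepJ {μ R N K b l Lg q β v τ : ℕ} {ℓ κ x : ℕ → ℕ}
    (P : Ph μ R N K b l Lg q β v τ R ℓ κ x) {t : ℕ} (ht : R ≤ t + 1 + μ) (h2 : t + 1 < R)
    (hτt : τ ≤ t) :
    lz μ R N κ x (t + 1) + oo μ R κ x t + sk μ κ x t = lz μ R N κ x t + (N - κ τ) := by
  have n := num P
  have k1 := P.pa t hτt (by omega)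
  have k2 := P.pa (t + 1) (by omega) h2
  have g2 := P.g2
  have := (goalH4' μ R N κ x (by have := n.μ1; omega) (by have := n.R1; have := n.μ1; omega)
    P.play t h2).1 (by rw [k1.1]; exact g2) (by rw [k2.1]; exact g2)
  rw [k1.1, k2.1, k1.2, k2.2] at this
  have e : na μ R (t + 1) = na μ R t + 1 := by
    unfold na
    omega
  rw [e, mul_add] at this
  simp only [Nat.sub_self, zero_mul, mul_one, add_zero] at this
  have e2 : N - 1 - κ τ + 1 = N - κ τ := by omega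
  omega


/-- the sum of the lengths -/
theorem sumL {μ R β : ℕ} {ℓ : ℕ → ℕ} (hl : Len R β ℓ) (hR : μ + 2 ≤ R) :
    ∑ z ∈ range R, ℓ z = ∑ z ∈ range (R - 1 - μ), ℓ z + ((μ + 1) * ℓ (R - 1 - μ) + β * T μ) := by
  have e : R = (R - 1 - μ) + (μ + 1) := by omega
  conv_lhs => rw [e]
  rw [Finset.sum_range_add, sum_ap (ℓ (R - 1 - μ)) β μ (fun i => ℓ (R - 1 - μ + i))]
  intro i hi
  induction i with
  | zero => simp
  | succ i ih =>
    have h1 := ih (by omega)
    have h2 := hl.st (R - 1 - μ + i) (by omega) (by omega)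
    rw [← add_assoc, h2, h1]
    ring

/-- comparison of the loads and the lengths before `J` -/
theorem sumJ {μ R N b τ V : ℕ} {ℓ κ x : ℕ → ℕ} (hτ1 : 1 ≤ τ) (hτJ : τ ≤ R - 1 - μ)
    (he : Ex μ R N ℓ κ x (τ - 1)) (hV : R - 1 - μ ≤ τ + V) (hR : μ + 2 ≤ R)
    (hG : ∀ t, τ ≤ t → t + 1 + μ ≤ R → lz μ R N κ x t ≤ ℓ t ∧
      4 * (ℓ t - lz μ R N κ x t) ≤ b * μ) :
    4 * ∑ z ∈ range (R - 1 - μ), ℓ z ≤ 4 * ∑ z ∈ range (R - 1 - μ), lz μ R N κ x z +
      V * (b * μ) := by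
  have e : R - 1 - μ = τ + (R - 1 - μ - τ) := by omega
  rw [e, Finset.sum_range_add, Finset.sum_range_add]
  have h1 : ∑ z ∈ range τ, ℓ z = ∑ z ∈ range τ, lz μ R N κ x z :=
    Finset.sum_congr rfl (fun z hz => (he.2.2 z (by have := mem_range.1 hz; omega)).symm)
  have h2 : ∑ i ∈ range (R - 1 - μ - τ), 4 * ℓ (τ + i) ≤
      ∑ i ∈ range (R - 1 - μ - τ), (4 * lz μ R N κ x (τ + i) + b * μ) := by
    refine Finset.sum_le_sum (fun i hi => ?_)
    have hi' := mem_range.1 hi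
    have := hG (τ + i) (by omega) (by omega)
    omega
  rw [← Finset.mul_sum, Finset.sum_add_distrib, ← Finset.mul_sum, Finset.sum_const,
    card_range, smul_eq_mul] at h2
  have h3 : (R - 1 - μ - τ) * (b * μ) ≤ V * (b * μ) := Nat.mul_le_mul_right _ (by omega)
  rw [h1]
  omega

/-- the inequality at `J` -/
theorem atJ {μ R N K b l Lg q β v τ : ℕ} {ℓ κ x : ℕ → ℕ} {W : ℤ} (h3 : GoalE3)
    (P : Ph μ R N K b l Lg q β v τ R ℓ κ x)
    (hG : ∀ t, τ ≤ t → t + 1 + μ ≤ R → lz μ R N κ x t ≤ ℓ t ∧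
      4 * (ℓ t - lz μ R N κ x t) ≤ b * μ)
    (hW : ∑ z ∈ range R, (ℓ z : ℤ) = (N + K) * T μ + W) :
    (Dd μ R κ x (R - 1 - μ) : ℤ) + (N - κ τ : ℕ) * T μ + W ≤
      Sd μ R κ x (R - 1 - μ) + (β + oo μ R κ x (R - 1 - μ)) * T μ := by
  have n := num P
  have n1 := n.μ1
  have n2 := n.lμ
  have n3 := n.l1
  have n4 := n.lv
  have n5 := n.vμ
  have n6 := n.R1
  have n7 := n.t1
  have n8 := n.t2
  have k1 := P.pa (R - 1 - μ) (by omega) (by omega)
  have hx : x (R - 1 - μ) = 0 := by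
    rw [k1.2]
    unfold na
    omega
  obtain ⟨a1, -⟩ := goalH1' μ R N κ x (by omega) (by omega) P.play
  have h4 := (h3 μ R N κ x (R - 1 - μ) (by omega) (by omega) P.play (by omega)
    (by rw [k1.1]; exact P.g2) (by omega)).2 (by
      apply ((a1 (κ (R - 1 - μ)) (R - 1 - μ) (by omega)).2).1
      unfold aa
      rw [hx]
      simp)
  have r1 : R - 1 - (R - 1 - μ) = μ := by omega
  have r2 : R - (R - 1 - μ) = μ + 1 := by omega
  rw [r1, r2, hx, k1.1] at h4
  simp only [Nat.zero_sub, mul_zero, add_zero] at h4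
  have s1 := sumL P.len (μ := μ) (by omega)
  have s2 := sumJ (by omega) (by omega) P.ex (V := 2 ^ q * v) (by omega) (by omega) hG
  have s3 := hG (R - 1 - μ) (by omega) (by omega)
  have s4 : 4 * ((μ + 1) * ℓ (R - 1 - μ)) ≤
      4 * ((μ + 1) * lz μ R N κ x (R - 1 - μ)) + (μ + 1) * (b * μ) := by
    have : 4 * ℓ (R - 1 - μ) ≤ 4 * lz μ R N κ x (R - 1 - μ) + b * μ := by omega
    nlinarith [Nat.mul_le_mul_left (μ + 1) this]
  have s5 : 2 ^ q * v * (b * μ) + (μ + 1) * (b * μ) ≤ 4 * (K * T μ) := by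
    have hK : b ≤ K := by
      rw [P.par.hK]
      exact Nat.le_mul_of_pos_right _ (by omega)
    have t2 := Pool.Agent.Helper43.Hw.two_T μ
    calc 2 ^ q * v * (b * μ) + (μ + 1) * (b * μ)
        ≤ (μ + 1) * (b * μ) + (μ + 1) * (b * μ) := by
          gcongr
          omega
      _ = 2 * (b * (μ * (μ + 1))) := by ring
      _ ≤ 2 * (K * (μ * (μ + 1))) := by gcongr
      _ = 4 * (K * T μ) := by rw [← t2]; ring
  have s6 : (∑ z ∈ range R, (ℓ z : ℤ)) = ((∑ z ∈ range R, ℓ z : ℕ) : ℤ) := by push_cast; rfl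
  rw [s6] at hW
  zify at h4 s1 s2 s4 s5
  linarith [h4, s1, s2, s4, s5, hW]


/-- the arithmetic at `J` -/
theorem arith {m l D S t A B W : ℤ} (hm : 1 ≤ m) (hl : 1 ≤ l) (hlm : 2 ^ 40 * l ≤ m)
    (ht : 2 * t = m * (m + 1)) (h1 : D + A * t + W ≤ S + B * t) (h2 : m ^ 3 ≤ 8 * l * D)
    (h3 : S ≤ m ^ 2) (h4 : 2 ^ 10 * l * |W| ≤ m ^ 3) :
    m + 5 * l * A ≤ 5 * l * B := by
  by_contra hc
  have hc1 : 5 * l * (B - A) ≤ m - 1 := by
    have : 5 * l * (B - A) = 5 * l * B - 5 * l * A := by ring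
    omega
  have ht0 : 0 ≤ t := by nlinarith
  have e1 : 10 * (l * ((B - A) * t)) ≤ m ^ 3 - m := by
    calc 10 * (l * ((B - A) * t)) = 2 * t * (5 * l * (B - A)) := by ring
      _ ≤ 2 * t * (m - 1) := by
        apply mul_le_mul_of_nonneg_left hc1
        omega
      _ = m ^ 3 - m := by rw [ht]; ring
  have e2 : l * (D + W - S) ≤ l * ((B - A) * t) := by
    apply mul_le_mul_of_nonneg_left _ (by omega)
    linarith
  have e3 : l * S ≤ l * m ^ 2 := mul_le_mul_of_nonneg_left h3 (by omega)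
  have e4 : 2 ^ 40 * (l * m ^ 2) ≤ m ^ 3 := by
    calc 2 ^ 40 * (l * m ^ 2) = (2 ^ 40 * l) * m ^ 2 := by ring
      _ ≤ m * m ^ 2 := mul_le_mul_of_nonneg_right hlm (by positivity)
      _ = m ^ 3 := by ring
  have e5 : -(2 ^ 10 * (l * W)) ≤ m ^ 3 := by
    have : l * (-W) ≤ l * |W| := mul_le_mul_of_nonneg_left (neg_le_abs W) (by omega)
    linarith
  have e6 : 0 < m ^ 3 := by positivity
  have e7 : m ^ 3 ≤ 8 * (l * D) := by linarith
  have e8 : l * (D + W - S) = l * D + l * W - l * S := by ring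
  linarith

/-- packet E8b -/
theorem goalE8b (h3 : GoalE3) (h6 : GoalE6) (h7 : GoalE7) (h8 : GoalE8a) : GoalE8b := by
  intro μ R N K b l Lg q β v τ ℓ κ x W P c1 c2 hW hW2
  have n := num P
  have n1 := n.μ1
  have n2 := n.lμ
  have n3 := n.l1
  have n4 := n.lv
  have n5 := n.vμ
  have n6 := n.R1
  have n7 := n.t1
  have n8 := n.t2
  obtain ⟨hG, -⟩ := h8 μ R N K b l Lg q β v τ ℓ κ x P c1 c2
  have hJ := atJ h3 P hG hW
  have hD := h7 μ R N K b l Lg q β v τ R ℓ κ x (R - 1 - μ) P (by omega) (by omega) (by omega)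
  have r1 : R - 1 - (R - 1 - μ) = μ := by omega
  rw [r1] at hD
  have hS := Sd_le (μ := μ) (R := R) (κ := κ) (x := x) (by omega)
  have hX : μ + 5 * l * (N - κ τ) ≤ 5 * l * (β + oo μ R κ x (R - 1 - μ)) := by
    have := arith (m := μ) (l := l) (D := Dd μ R κ x (R - 1 - μ)) (S := Sd μ R κ x (R - 1 - μ))
      (t := T μ) (A := (N - κ τ : ℕ)) (B := (β + oo μ R κ x (R - 1 - μ) : ℕ)) (W := W)
      (by omega) (by omega) (by exact_mod_cast n2)
      (by exact_mod_cast Pool.Agent.Helper43.Hw.two_T μ)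
      (by push_cast at hJ ⊢; linarith) (by exact_mod_cast hD) (by exact_mod_cast hS) hW2
    exact_mod_cast this
  have m1 : ∀ t, R ≤ t + 1 + μ → t < R - 1 - μ + μ / 400 →
      μ + 16 * l * ℓ t + 16 * l * lz μ R N κ x (t + 1) ≤
        16 * l * ℓ (t + 1) + 16 * l * lz μ R N κ x t := by
    intro t ht1 ht2
    have s1 := stepJ P ht1 (by omega) (by omega)
    have s2 := P.len.st t (by omega) (by omega)
    have s3 := deaths h6 (by omega) n6 P.len P.play P.ex (by omega) (by omega) P.hi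
      (t := t) (by omega) (by omega) (by omega) (by
        rw [(P.pa t (by omega) (by omega)).1, (P.pa (R - 1 - μ) (by omega) (by omega)).1])
    have s4 : μ + 16 * (l * (N - κ τ)) ≤ 16 * (l * (β + oo μ R κ x t)) := by
      have u1 : 5 * l * (N - κ τ) = 5 * (l * (N - κ τ)) := by ring
      have u2 : 5 * l * (β + oo μ R κ x (R - 1 - μ)) =
        5 * (l * β) + 5 * (l * oo μ R κ x (R - 1 - μ)) := by ring
      have u3 : l * (β + oo μ R κ x t) = l * β + l * oo μ R κ x t := by ring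
      rw [u1, u2] at hX
      rw [u3]
      omega
    rw [s2]
    have s5 : 16 * l * lz μ R N κ x (t + 1) + 16 * (l * oo μ R κ x t) ≤
        16 * l * lz μ R N κ x t + 16 * (l * (N - κ τ)) := by
      have := Nat.mul_le_mul_left (16 * l) (show lz μ R N κ x (t + 1) + oo μ R κ x t ≤
        lz μ R N κ x t + (N - κ τ) by omega)
      calc _ = 16 * l * (lz μ R N κ x (t + 1) + oo μ R κ x t) := by ring
        _ ≤ 16 * l * (lz μ R N κ x t + (N - κ τ)) := this
        _ = _ := by ring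
    have s6 : 16 * l * (ℓ t + β) = 16 * l * ℓ t + 16 * (l * β) := by ring
    have s7 : 16 * (l * (β + oo μ R κ x t)) = 16 * (l * β) + 16 * (l * oo μ R κ x t) := by ring
    rw [s6]
    rw [s7] at s4
    omega
  refine ⟨m1, ?_⟩
  have m2 : ∀ i, i ≤ μ / 400 → lz μ R N κ x (R - 1 - μ + i) ≤ ℓ (R - 1 - μ + i) := by
    intro i
    induction i with
    | zero =>
      intro _
      exact (hG (R - 1 - μ) (by omega) (by omega)).1
    | succ i ih =>
      intro hi
      have v1 := ih (by omega)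
      have v2 := m1 (R - 1 - μ + i) (by omega) (by omega)
      have v3 : 16 * l * lz μ R N κ x (R - 1 - μ + i) ≤ 16 * l * ℓ (R - 1 - μ + i) :=
        Nat.mul_le_mul_left _ v1
      have v4 : 16 * l * lz μ R N κ x (R - 1 - μ + i + 1) ≤ 16 * l * ℓ (R - 1 - μ + i + 1) := by
        omega
      exact Nat.le_of_mul_le_mul_left v4 (by omega)
  intro t ht1 ht2
  have := m2 (t - (R - 1 - μ)) (by omega)
  rwa [show R - 1 - μ + (t - (R - 1 - μ)) = t by omega] at this

end Pool.Agent.Helper48.EW
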