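import Mathlib
import Pool.Agent.Helper18.EW.Goals4

/-!
# EW packet LnZ (MP_d3128a_ag)
-/

set_option autoImplicit false

namespace Pool.Agent.Helper48.EW

open Finset
open Pool.Agent.Helper18.EW

theorem mul_sub_add {p q y : ℕ} (h : y ≤ q) : p * (q - y) + p * y = p * q := by
  rw [← mul_add, Nat.sub_add_cancel h]

theorem rz_eq {p d h y : ℕ} (hh : 1 ≤ h) (h1 : 1 ≤ y) (h2 : y ≤ (h - 1) / p) :
    rz p d h y = ∑ r ∈ range p, (d + 1 - (p * ((h - 1) / p - y) + r)) := by
  unfold rz
  rw [Finset.filter_true_of_mem]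
  intro r hr
  have hr' := mem_range.1 hr
  have e1 := mul_sub_add (p := p) h2
  have e2 : p * 1 ≤ p * y := Nat.mul_le_mul_left p h1
  have e3 : p * ((h - 1) / p) ≤ h - 1 := Nat.mul_div_le _ _
  omega

/-- packet LnZ -/
theorem goalLnZ : GoalLnZ := by
  intro p d h hp hh hd hb
  obtain ⟨q, hq⟩ : ∃ q, q = (h - 1) / p := ⟨_, rfl⟩
  rw [← hq]
  have e3 : p * q ≤ h - 1 := by
    rw [hq]
    exact Nat.mul_div_le _ _
  have e4 : h ≤ p * (q + 1) := by
    have := Nat.lt_mul_div_succ (h - 1) (show 0 < p by omega)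
    rw [← hq] at this
    omega
  have hq1 : 1 ≤ q := by
    by_contra hc
    have : q = 0 := by omega
    rw [this] at e4
    omega
  have hpp : p ^ 2 = p * p := by ring
  have hr0 : rz p d h 0 ≤ p * (d + 1 - h + p) := by
    unfold rz
    refine (Finset.sum_le_card_nsmul _ _ (d + 1 - h + p) ?_).trans ?_
    · intro r hr
      rw [Nat.sub_zero, ← hq]
      have : p * (q + 1) = p * q + p := by ring
      omega
    · rw [smul_eq_mul]
      refine Nat.mul_le_mul_right _ ?_
      exact (Finset.card_filter_le _ _).trans (by simp)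
  have hst : ∀ y, 1 ≤ y → y + 1 ≤ q → rz p d h (y + 1) = rz p d h y + p ^ 2 := by
    intro y h1 h2
    rw [rz_eq hh h1 (by omega), rz_eq hh (by omega) (by omega), ← hq]
    have : p ^ 2 = ∑ r ∈ range p, p := by simp [sq]
    rw [this, ← Finset.sum_add_distrib]
    refine Finset.sum_congr rfl (fun r hr => ?_)
    have hr' := mem_range.1 hr
    have a1 := mul_sub_add (p := p) (show y ≤ q by omega)
    have a2 := mul_sub_add (p := p) (show y + 1 ≤ q by omega)
    have a3 : p * (y + 1) = p * y + p := by ring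
    have a4 : p * 1 ≤ p * y := Nat.mul_le_mul_left p h1
    omega
  refine ⟨Nat.one_le_pow _ _ hp, ?_, ?_, ?_, ?_, ?_⟩
  · calc 100 * rz p d h 0 ≤ 100 * (p * (d + 1 - h + p)) := Nat.mul_le_mul_left _ hr0
      _ = p * (100 * (d + 1 - h) + 100 * p) := by ring
      _ ≤ p * h := Nat.mul_le_mul_left _ hb
      _ ≤ p * (p * (q + 1)) := Nat.mul_le_mul_left _ e4
      _ = p ^ 2 * (q + 1) := by ring
  · rw [rz_eq hh (le_refl 1) (by omega), ← hq]
    unfold rz
    rw [Nat.sub_zero, ← hq]
    refine lt_of_lt_of_le (Finset.sum_lt_sum_of_nonempty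
      (g := fun r => d + 1 - (p * (q - 1) + r)) ?_ ?_) ?_
    · refine ⟨0, ?_⟩
      rw [mem_filter, mem_range]
      omega
    · intro r hr
      rw [mem_filter, mem_range] at hr
      have a1 := mul_sub_add (p := p) hq1
      omega
    · exact Finset.sum_le_sum_of_subset (Finset.filter_subset _ _)
  · intro y h1 h2
    exact hst y h1 (by omega)
  · intro y h1 h2
    rw [rz_eq hh h1 (by omega), ← hq, Finset.mul_sum]
    have a1 := mul_sub_add (p := p) (show y ≤ q by omega)
    have a4 : p * 1 ≤ p * y := Nat.mul_le_mul_left p h1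
    have b1 : ∑ r ∈ range p, (2 * (p * y) + 2) ≤
        ∑ r ∈ range p, (2 * (d + 1 - (p * (q - y) + r)) + 2 * r) := by
      refine Finset.sum_le_sum (fun r hr => ?_)
      have hr' := mem_range.1 hr
      omega
    rw [Finset.sum_const, card_range, smul_eq_mul, Finset.sum_add_distrib,
      ← Finset.mul_sum (range p) (fun r => r)] at b1
    have b2 : 2 * ∑ r ∈ range p, r = p * (p - 1) := by
      rw [mul_comm, Finset.sum_range_id_mul_two]
    rw [b2] at b1
    have b3 : p * (p - 1) ≤ p ^ 2 := by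
      rw [hpp]
      exact Nat.mul_le_mul_left _ (by omega)
    have b4 : p * (2 * (p * y) + 2) = p ^ 2 * (2 * y) + 2 * p := by ring
    omega
  · intro y hy
    have c1 : rz p d h y ≤ p * (d + 1) := by
      unfold rz
      refine (Finset.sum_le_card_nsmul _ _ (d + 1) ?_).trans ?_
      · intro r hr
        omega
      · rw [smul_eq_mul]
        refine Nat.mul_le_mul_right _ ?_
        exact (Finset.card_filter_le _ _).trans (by simp)
    have c2 : 50 * (d + 1) ≤ 51 * h := by omega
    calc 50 * rz p d h y ≤ 50 * (p * (d + 1)) := Nat.mul_le_mul_left _ c1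
      _ = p * (50 * (d + 1)) := by ring
      _ ≤ p * (51 * h) := Nat.mul_le_mul_left _ c2
      _ ≤ p * (51 * (p * (q + 1))) := by gcongr
      _ = 51 * (p ^ 2 * (q + 1)) := by ring

end Pool.Agent.Helper48.EW
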